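import Pool.Agent.N20.KB.Mult
import Pool.Agent.N85.WM.Fin
import Pool.Agent.Y63.NV.Final
import Pool.Agent.R674.KB.Dz

/-!
# The blockwise alternating sums and weights
-/

set_option autoImplicit false
set_option linter.unusedSectionVars false

open scoped BigOperators Classical

noncomputable section

namespace Pool.Agent.Hp21.AW

open Pool.Agent.Y63.NV
open Pool.Agent.Y63.KR
open Pool.Agent.Y63.AWC (IsIrreducibleCharacter pSubgroupSetoid)
open Pool.Agent.N20.KB
open Pool.Agent.N85.WM (YS cvS cvS_block blkOf blkOf_block cnt_mod lnum_top numWts numWts_eq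
  numIrrBlock_eq IsIdem exists_idem BEq wcv IsW)
open Pool.Agent.N85.WM.Ww (tot wsum_tot tot_cm isW_cm_iff wcv_cm cm)

variable {p : ℕ} {F : Type} [Field F] (red : integralClosure ℤ ℂ →+* F)

/-- the number of classes of weights with the value `c` at `z` -/
def wn (p : ℕ) {F : Type} [Field F] (red : integralClosure ℤ ℂ →+* F) {J : Type} [Group J]
    (z : J → F) (c : F) : ℕ := Nat.card {y : YS p J // cvS red y z = c}

theorem wsum_iso {J K : Type} [Group J] [Group K] [Finite J] [Finite K] (e : J ≃* K) {z : K → F}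
    (hz : IsClassFun z) (c : F) :
    Wsum p red (⊤ : Subgroup J) ⊤ (fun x => z (e x)) c = Wsum p red (⊤ : Subgroup K) ⊤ z c := by
  rw [wsum_tot, wsum_tot]
  refine tot_cm e fun Q χ => ?_
  constructor
  · rintro ⟨h1, h2⟩
    rw [isW_cm_iff] at h1
    rw [wcv_cm red e h1 hz] at h2
    exact ⟨h1, h2⟩
  · rintro ⟨h1, h2⟩
    refine ⟨(isW_cm_iff e).mpr h1, ?_⟩
    rw [wcv_cm red e h1 hz]
    exact h2

theorem wn_iso {J K : Type} [Group J] [Group K] [Finite J] [Finite K] (e : J ≃* K) {z : K → F}
    (hz : IsClassFun z) (c : F) : wn p red (fun x => z (e x)) c = wn p red z c := by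
  have h := wsum_iso (p := p) red e hz c
  have hz' : IsClassFun (fun x => z (e x)) := by
    intro g x
    simp only [map_mul, map_inv]
    exact hz _ _
  rw [Pool.Agent.N85.WM.wsum_top red hz', Pool.Agent.N85.WM.wsum_top red hz,
    Nat.card_congr e.toEquiv] at h
  have h0 : (Nat.card K : ℤ) ≠ 0 := by exact_mod_cast Nat.card_pos.ne'
  have h1 := mul_left_cancel₀ h0 h
  unfold wn
  exact_mod_cast h1

variable [hp : Fact p.Prime] [IsAlgClosed F] [CharP F p]

theorem tr_lnum {J : Type} [Group J] [Finite J] (z : J → F) (c : F) :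
    tr z c = Lnum (⊤ : Subgroup J) ⊤ z c := by
  have h := lsum_tr z c
  rw [Pool.Agent.N85.WM.lsum_top] at h
  have h0 : (Nat.card J : ℤ) ≠ 0 := by exact_mod_cast Nat.card_pos.ne'
  have h1 := mul_left_cancel₀ h0 h
  exact_mod_cast h1.symm

/-- the parity of the difference for one group -/
theorem tr_wn {J : Type} [Group J] [Finite J] (m : ℕ)
    (h : ∀ B : (J → F) → F, IsBlock B → numIrrBlock B ≡ numWts p red B [MOD m]) {z : J → F}
    (hz : IsClassFun z) (c : F) : tr z c ≡ wn p red z c [MOD m] := by
  rw [tr_lnum, lnum_top hz]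
  refine cnt_mod (fun φ : {φ : J → F // IsIrrTrace φ} => blkOf φ)
    (fun y : YS p J => cvS red y) blkOf_block (cvS_block red) m ?_ hz c
  intro B hB
  rw [← numIrrBlock_eq, ← numWts_eq]
  exact h B hB

section alt

variable {G : Type} [Group G] [Finite G]

theorem wsum_wn {z : G → F} (hz : IsClassFun z) (c : F) (H : Subgroup G) :
    Wsum p red ⊤ H z c = (Nat.card H : ℤ) * (wn p red (fun x : H => z x) c : ℤ) := by
  rw [Pool.Agent.Y624.NV.trn p F red G ⊤ H z c (top_sup_eq H) (fun h _ x => hz h x),
    Subgroup.top_subgroupOf]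
  exact Pool.Agent.N85.WM.wsum_top (p := p) (G := H) red (z := fun x : H => z x)
    (fun g x => hz g x) c

/-- **the exact formula** -/
theorem alt_formula {z : G → F} (hz : IsClassFun z) (c : F) :
    aB red p G z c - (Nw p red (⊥ : Subgroup G) z c : ℤ) =
      alternatingSum p G
        (fun H => (tr (fun x : H => z x) c : ℤ) - wn p red (fun x : H => z x) c) := by
  have h0 : (Nat.card G : ℤ) ≠ 0 := by exact_mod_cast Nat.card_pos.ne'
  refine mul_left_cancel₀ h0 ?_
  have h1 := ksum_sub (p := p) Pool.Agent.R674.KB.kdimh Pool.Agent.R674.KB.kfilt red hz c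
  have h2 := aa_aB (p := p) red hz c
  unfold AA at h2
  rw [h2] at h1
  rw [mul_sub, h1]
  have h3 := Pool.Agent.Q90.WR.card_mul_alternatingSum' (p := p)
    (fun H : Subgroup G => (tr (fun x : H => z x) c : ℤ) - wn p red (fun x : H => z x) c) (by
      intro g H
      let e : H ≃* conjSub g H := H.equivMapOfInjective _ (MulAut.conj g).injective
      have h4 := tr_iso e (fun x : conjSub g H => z x) c
      have h5 := wn_iso (p := p) red e (z := fun x : conjSub g H => z x) (fun a x => hz a x) c
      have h6 : (fun x : H => z (e x)) = fun x : H => z x := by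
        funext x
        exact hz g x
      change ((tr (fun x : conjSub g H => z x) c : ℕ) : ℤ) -
        (wn p red (fun x : conjSub g H => z x) c : ℕ) = _
      rw [← h4, ← h5, h6])
  rw [h3, finsum_eq_sum_of_fintype]
  refine Finset.sum_congr rfl fun σ _ => ?_
  rw [fl_eq, fl_tr, wsum_wn red hz]
  ring

/-- the parity of the alternating sum -/
theorem alt_dvd (m : ℕ) (hA : ∀ H : Subgroup G, ∀ B : (H → F) → F, IsBlock B →
      numIrrBlock B ≡ numWts p red B [MOD m]) {z : G → F} (hz : IsClassFun z) (c : F) :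
    (m : ℤ) ∣ aB red p G z c - (Nw p red (⊥ : Subgroup G) z c : ℤ) := by
  have : Fintype (Quotient (chainSetoid p G)) := Fintype.ofFinite _
  rw [alt_formula red hz c]
  unfold alternatingSum
  rw [finsum_eq_sum_of_fintype]
  refine Finset.dvd_sum fun c' _ => Dvd.dvd.mul_left ?_ _
  have h2 := tr_wn red m (hA (chainStabilizer c'.out.1)) (z := fun x => z x)
    (fun g x => hz g x) c
  exact Nat.modEq_iff_dvd.mp h2.symm

/-- the two descriptions of the alternating sum of a block -/
theorem aB_block {B : (G → F) → F} {e : G → F} (he : IsClassFun e) (h1 : B e = 1)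
    (h2 : ∀ B' : (G → F) → F, IsBlock B' → B' e = 1 → BEq B B') :
    aB red p G e 1 = alternatingSum p G (fun H => (numIrrInd red H B : ℤ)) := by
  unfold aB alternatingSum
  refine finsum_congr fun c => ?_
  congr 2
  unfold Knum numIrrInd
  have key : ∀ χ : chainStabilizer c.out.1 → ℂ, (IsIrreducibleCharacter χ ∧
      centralValue red χ (fun x => e x) = 1) ↔ (IsIrreducibleCharacter χ ∧
      ∀ f : G → F, IsClassFun f → centralValue red χ (fun x => f x) = B f) := by
    intro χ
    refine and_congr_right fun hχ => ?_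
    constructor
    · intro h f hf
      exact (h2 _ (Pool.Agent.R674.KB.kblk p F red G c.out.1 χ c.out.2 hχ) h f hf).symm
    · intro h
      rw [h e he, h1]
  exact congrArg (Nat.cast (R := ℤ)) (Nat.card_congr (Equiv.subtypeEquivRight key))

theorem nw_block {B : (G → F) → F} {e : G → F} (he : IsClassFun e) (h1 : B e = 1)
    (h2 : ∀ B' : (G → F) → F, IsBlock B' → B' e = 1 → BEq B B') :
    Nw p red (⊥ : Subgroup G) e 1 = numDzBlock p red B := by
  unfold Nw numDzBlock
  refine Nat.card_congr (Equiv.subtypeEquivRight fun χ => ?_)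
  refine and_congr_right fun hχ => ?_
  constructor
  · intro h f hf
    exact (h2 _ (Pool.Agent.Y930.NV.cvh F red G χ hχ.irr) h f hf).symm
  · intro h
    rw [h e he, h1]

/-- **the alternating sum of a block is congruent to the number of characters of defect zero, if
the weight conjecture holds modulo `m` for the subgroups** -/
theorem block_dvd (m : ℕ) (hA : ∀ H : Subgroup G, ∀ B : (H → F) → F, IsBlock B →
      numIrrBlock B ≡ numWts p red B [MOD m]) {B : (G → F) → F} (hB : IsBlock B) :
    (m : ℤ) ∣ alternatingSum p G (fun H => (numIrrInd red H B : ℤ)) - numDzBlock p red B := by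
  obtain ⟨e, he, h1, h2⟩ := exists_idem hB
  have h := alt_dvd (p := p) red m hA he.cl 1
  rwa [aB_block red he.cl h1 h2, nw_block red he.cl h1 h2] at h

end alt

end Pool.Agent.Hp21.AW
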