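import Pool.Agent.N19.RB.Par
import Pool.Agent.Helper475.ExistsRingequivPow

/-!
# The number of Galois conjugates of a function with algebraic values
-/

set_option autoImplicit false
set_option linter.unusedSectionVars false

open scoped Classical

noncomputable section

namespace Pool.Agent.Hp21.AW

open Pool.Agent.N19.RB

/-- The field of values `ℚ(χ)`. -/
abbrev fieldOf {G : Type} (χ : G → ℂ) : IntermediateField ℚ ℂ :=
  IntermediateField.adjoin ℚ (Set.range χ)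

theorem numCh_eq {G : Type} [Finite G] {χ : G → ℂ} (h : ∀ g, IsAlgebraic ℚ (χ g)) :
    numCh χ = Module.finrank ℚ (fieldOf χ) := by
  have hfin : FiniteDimensional ℚ (fieldOf χ) :=
    IntermediateField.finiteDimensional_adjoin (fun x hx => by
      obtain ⟨g, rfl⟩ := hx
      exact (h g).isIntegral)
  have hmem : ∀ g, χ g ∈ fieldOf χ := fun g =>
    IntermediateField.subset_adjoin ℚ _ ⟨g, rfl⟩
  have hcard : Fintype.card (fieldOf χ →ₐ[ℚ] ℂ) = Module.finrank ℚ (fieldOf χ) :=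
    AlgHom.card ℚ (fieldOf χ) ℂ
  rw [← hcard, ← Nat.card_eq_fintype_card]
  unfold numCh
  rw [← Nat.card_coe_set_eq]
  symm
  refine Nat.card_congr (Equiv.ofBijective (fun φ : fieldOf χ →ₐ[ℚ] ℂ =>
    (⟨fun g => φ ⟨χ g, hmem g⟩, ?_⟩ : {ψ : G → ℂ | ∃ σ : ℂ ≃+* ℂ, ψ = fun g => σ (χ g)})) ⟨?_, ?_⟩)
  · have hF : Cardinal.mk (fieldOf χ) ≤ Cardinal.aleph0 := by
      have h1 : Algebra.IsAlgebraic ℚ (fieldOf χ) := inferInstance
      have h2 := Algebra.IsAlgebraic.cardinalMk_le_max ℚ (fieldOf χ)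
      refine h2.trans ?_
      simp
    obtain ⟨σ, hσ⟩ := H475.exists_ringEquiv_pow_aux2 hF (algebraMap (fieldOf χ) ℂ)
      (φ : fieldOf χ →+* ℂ)
    exact ⟨σ, funext fun g => (hσ ⟨χ g, hmem g⟩).symm⟩
  · intro φ ψ hφψ
    have h1 : ∀ g, φ ⟨χ g, hmem g⟩ = ψ ⟨χ g, hmem g⟩ := fun g =>
      congrFun (congrArg Subtype.val hφψ) g
    refine IntermediateField.algHom_ext_of_eq_adjoin _ rfl fun x hx => ?_
    obtain ⟨g, rfl⟩ := hx
    exact h1 g
  · rintro ⟨ψ, σ, rfl⟩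
    exact ⟨((RingEquiv.toRatAlgEquiv σ : ℂ ≃ₐ[ℚ] ℂ) : ℂ →ₐ[ℚ] ℂ).comp (fieldOf χ).val, rfl⟩

end Pool.Agent.Hp21.AW
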