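import Pool.Agent.Q90.WR.Krq
import Pool.Agent.Y63.NV.Krc
import Pool.Agent.N85.WM.Fin

/-!
# The numbers of weights and of regular classes: parity
-/

set_option autoImplicit false

open scoped BigOperators Classical

noncomputable section

namespace Pool.Agent.Hp21.AW

open Pool.Agent.Y63.NV
open Pool.Agent.Y63.KR
open Pool.Agent.Y63.AWC (IsIrreducibleCharacter pSubgroupSetoid numDefectZero numWeights
  numRegularClasses)
open Pool.Agent.Q90.WR (Wr WrN altK krc_altK krc_dvd eq_of_all defectZero_mod invol_mod
  numRealDefectZero)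

/-- the difference of the two sides of the identity of Knörr and Robinson -/
theorem altK_sub (p : ℕ) [Fact p.Prime] (G : Type) [Group G] [Finite G] :
    altK p G - numDefectZero p G =
      alternatingSum p G (fun H => (numRegularClasses p H : ℤ) - numWeights p H) := by
  rw [alternatingSum_sub (fun H : Subgroup G => (numRegularClasses p H : ℤ))
    (fun H : Subgroup G => (numWeights p H : ℤ)), altSum_weights]
  congr 1
  have e1 : (fun H : Subgroup G => (Nat.card (ConjClasses H) : ℤ)) =
      fun H : Subgroup G => (numFixed 1 H : ℤ) := funext fun H => by rw [numFixed_one]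
  have e2 : (fun H : Subgroup G => (numFixedRegular p 1 H : ℤ)) =
      fun H : Subgroup G => (numRegularClasses p H : ℤ) := funext fun H => by
    have : numFixedRegular p 1 H = numRegularClasses p H := by
      unfold numFixedRegular numRegularClasses
      refine Nat.card_congr (Equiv.subtypeEquivRight fun C => ?_)
      refine exists_congr fun x => and_congr_right fun _ => ?_
      rw [pow_one]
      exact ⟨fun h => h.2, fun h => ⟨IsConj.refl x, h⟩⟩
    rw [this]
  unfold altK
  rw [e1, galois 1, e2]

/-- the weight conjecture for the class, from the identities of Knörr and Robinson -/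
theorem awc_of_krc (p : ℕ) [Fact p.Prime] (X : ∀ (H : Type) [Group H], Prop) (hX : Closed p X)
    (h : ∀ (H : Type) [Group H] [Finite H], X H → Reduced p H → KRC p H) :
    ∀ (Γ : Type) [Group Γ] [Finite Γ], XP p X Γ → numRegularClasses p Γ = numWeights p Γ := by
  intro Γ _ _ hΓ
  refine reduction' p X hX ?_ (Nat.card Γ) Γ le_rfl hΓ
  intro H _ _ hH hR hsmall
  have h1 := krc_lw.1 (h H hH hR)
  rw [alternatingSum_single] at h1
  · have h2 := Pool.Agent.Y63.AWC.numRegularClasses_congr (p := p)
      (Subgroup.topEquiv (G := H))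
    have h3 := Pool.Agent.Y63.AWC.numWeights_congr (p := p) (Subgroup.topEquiv (G := H))
    rw [h2, h3] at h1
    have := sub_eq_zero.1 h1
    exact_mod_cast this
  · intro σ hσ hne
    have hXP : XP p X (chainStabilizer σ) :=
      (xp_closed p X hX).sub H ⟨⊤, inferInstance,
        hX.iso _ _ hH ⟨Subgroup.topEquiv.symm⟩, pgroup_top p H⟩ _
    change (numRegularClasses p (chainStabilizer σ) : ℤ) -
      numWeights p (chainStabilizer σ) = 0
    rw [hsmall (chainStabilizer σ) hXP (stab_lt hR.radical hσ hne), sub_self]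

/-- odd primes -/
theorem free_odd (p : ℕ) [Fact p.Prime] (hp2 : p ≠ 2) (X : ∀ (H : Type) [Group H], Prop)
    (hX : Closed p X) (hwr : ∀ (G : Type) [Group G] [Finite G], X G → X (Wr G))
    (h : ∀ (G : Type) [Group G] [Finite G], X G →
      numRegularClasses p G ≡ numWeights p G [MOD 2]) :
    ∀ (G : Type) [Group G] [Finite G], X G → numRegularClasses p G = numWeights p G := by
  have h1 : ∀ (G : Type) [Group G] [Finite G], X G →
      (2 : ℤ) ∣ altK p G - numDefectZero p G := by
    intro G _ _ hG
    have : Fintype (Quotient (chainSetoid p G)) := Fintype.ofFinite _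
    rw [altK_sub]
    unfold alternatingSum
    rw [finsum_eq_sum_of_fintype]
    refine Finset.dvd_sum fun c _ => Dvd.dvd.mul_left ?_ _
    have h2 := h (chainStabilizer c.out.1) (hX.sub G hG _)
    exact (Nat.modEq_iff_dvd.mp h2.symm)
  have h2 : ∀ (j : ℕ) (G : Type) [Group G] [Finite G], X G → X (WrN j G) := by
    intro j
    induction j with
    | zero => exact fun G _ _ hG => hG
    | succ j ih => exact fun G _ _ hG => ih (Wr G) (hwr G hG)
  have h3 : ∀ (G : Type) [Group G] [Finite G], X G → KRC p G := by
    intro G _ _ hG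
    rw [krc_altK]
    exact eq_of_all fun a => krc_dvd hp2 a G fun j _ => h1 (WrN j G) (h2 j G hG)
  intro G _ _ hG
  exact awc_of_krc p X hX (fun H _ _ hH _ => h3 H hH) G
    ⟨⊤, inferInstance, hX.iso _ _ hG ⟨Subgroup.topEquiv.symm⟩, pgroup_top p G⟩

/-! ### real classes and real weights -/

/-- The number of conjugacy classes of real `p`-regular elements: `x` is conjugate to `x⁻¹`. -/
def numRealRegularClasses (p : ℕ) (G : Type) [Group G] : ℕ :=
  Nat.card {c : ConjClasses G // ∃ x : G, ConjClasses.mk x = c ∧ ¬ p ∣ orderOf x ∧ IsConj x x⁻¹}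

/-- The number of conjugacy classes of weights `(Q, χ)` with a real-valued character `χ` of
`N_G(Q)/Q`. -/
def numRealWeights (p : ℕ) (G : Type) [Group G] : ℕ :=
  ∑ᶠ c : Quotient (pSubgroupSetoid p G),
    numRealDefectZero p (Subgroup.normalizer (c.out.1 : Set G) ⧸
      c.out.1.subgroupOf (Subgroup.normalizer (c.out.1 : Set G)))

theorem regular_mod (p : ℕ) (G : Type) [Group G] [Finite G] :
    numRegularClasses p G ≡ numRealRegularClasses p G [MOD 2] := by
  let g : ConjClasses G → ConjClasses G :=
    Quotient.map (fun x : G => x⁻¹) (by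
      intro x y h
      obtain ⟨c, hc⟩ := isConj_iff.mp h
      refine isConj_iff.mpr ⟨c, ?_⟩
      rw [← hc]; group)
  have hg : ∀ x : G, g (ConjClasses.mk x) = ConjClasses.mk x⁻¹ := fun _ => rfl
  let f : {c : ConjClasses G // ∃ x : G, ConjClasses.mk x = c ∧ ¬ p ∣ orderOf x} →
      {c : ConjClasses G // ∃ x : G, ConjClasses.mk x = c ∧ ¬ p ∣ orderOf x} := fun c =>
    ⟨g c.1, by
      obtain ⟨x, hx, h⟩ := c.2
      exact ⟨x⁻¹, by rw [← hx, hg], by rwa [orderOf_inv]⟩⟩
  have h := invol_mod f (by
    intro c
    apply Subtype.ext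
    change g (g c.1) = c.1
    obtain ⟨x, hx, _⟩ := c.2
    rw [← hx, hg, hg, inv_inv])
  refine h.trans ?_
  unfold numRealRegularClasses
  rw [show Nat.card {c // f c = c} = Nat.card {c : ConjClasses G //
    ∃ x : G, ConjClasses.mk x = c ∧ ¬ p ∣ orderOf x ∧ IsConj x x⁻¹} from Nat.card_congr
      { toFun := fun c => ⟨c.1.1, by
          obtain ⟨x, hx, h1⟩ := c.1.2
          refine ⟨x, hx, h1, ?_⟩
          have h2 : g c.1.1 = c.1.1 := congrArg Subtype.val c.2
          rw [← hx, hg, ConjClasses.mk_eq_mk_iff_isConj] at h2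
          exact h2.symm⟩
        invFun := fun c => ⟨⟨c.1, by
          obtain ⟨x, hx, h1, _⟩ := c.2
          exact ⟨x, hx, h1⟩⟩, by
          obtain ⟨x, hx, _, h2⟩ := c.2
          apply Subtype.ext
          change g c.1 = c.1
          rw [← hx, hg, ConjClasses.mk_eq_mk_iff_isConj]
          exact h2.symm⟩
        left_inv := fun c => rfl
        right_inv := fun c => rfl }]

theorem weights_mod (p : ℕ) (G : Type) [Group G] [Finite G] :
    numWeights p G ≡ numRealWeights p G [MOD 2] := by
  have : Fintype (Quotient (pSubgroupSetoid p G)) := Fintype.ofFinite _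
  unfold numWeights numRealWeights
  rw [finsum_eq_sum_of_fintype, finsum_eq_sum_of_fintype]
  exact Nat.ModEq.sum fun c _ => defectZero_mod p _

end Pool.Agent.Hp21.AW
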