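import Pool.Agent.Q90.WR.Grp
import Pool.Agent.N85.WM.Stm

/-!
# Two models of the wreath product with a group of order two
-/

set_option autoImplicit false

open scoped BigOperators Classical

noncomputable section

namespace Pool.Agent.Hp21.AW

open Pool.Agent.Q90.WR (Wr)

theorem zmod2_cases (t : Multiplicative (ZMod 2)) : t = 1 ∨ t = Multiplicative.ofAdd 1 := by
  have h : ∀ u : ZMod 2, u = 0 ∨ u = 1 := by decide
  rcases h t.toAdd with h | h
  · left
    exact h
  · right
    exact h

/-- the isomorphism -/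
def isoHom (G : Type) [Group G] : Pool.Agent.N85.WM.Wr 2 G →* Wr G where
  toFun x := ⟨x.left 0, x.left 1, if x.right = 1 then false else true⟩
  map_one' := by
    rw [Wr.one_def]
    simp
  map_mul' := by
    intro x y
    have h1 : (Multiplicative.ofAdd (1 : ZMod 2)) ≠ 1 := by decide
    have h2 : (Multiplicative.ofAdd (1 : ZMod 2)) * Multiplicative.ofAdd 1 = 1 := by decide
    obtain ⟨xl, xr⟩ := x
    obtain ⟨yl, yr⟩ := y
    rcases zmod2_cases xr with rfl | rfl
    · have e : (⟨xl, 1⟩ : Pool.Agent.N85.WM.Wr 2 G) * ⟨yl, yr⟩ = ⟨xl * yl, yr⟩ := by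
        ext i
        · simp
        · simp
      rw [e]
      simp only [if_true, Wr.mk_false_mul, Pi.mul_apply]
    · have e : (⟨xl, Multiplicative.ofAdd 1⟩ : Pool.Agent.N85.WM.Wr 2 G) * ⟨yl, yr⟩ =
          ⟨fun i => xl i * yl (i - 1), Multiplicative.ofAdd 1 * yr⟩ := rfl
      have e0 : (0 : ZMod 2) - 1 = 1 := by decide
      have e1 : (1 : ZMod 2) - 1 = 0 := by decide
      rw [e]
      simp only [if_neg h1, Wr.mk_true_mul, e0, e1]
      rcases zmod2_cases yr with rfl | rfl
      · simp [h1]
      · simp [h1, h2]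

/-- the isomorphism -/
def iso (G : Type) [Group G] : Pool.Agent.N85.WM.Wr 2 G ≃* Wr G :=
  MulEquiv.ofBijective (isoHom G) (by
    have h1 : (Multiplicative.ofAdd (1 : ZMod 2)) ≠ 1 := by decide
    constructor
    · rintro ⟨xl, xr⟩ ⟨yl, yr⟩ h
      have h' : (⟨xl 0, xl 1, if xr = 1 then false else true⟩ : Wr G) =
        ⟨yl 0, yl 1, if yr = 1 then false else true⟩ := h
      rw [Wr.mk.injEq] at h'
      obtain ⟨a1, a2, a3⟩ := h'
      have hl : xl = yl := by
        funext i
        have : i = 0 ∨ i = 1 := by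
          revert i
          decide
        rcases this with rfl | rfl
        · exact a1
        · exact a2
      subst hl
      rcases zmod2_cases xr with rfl | rfl <;> rcases zmod2_cases yr with rfl | rfl
      · rfl
      · simp [h1] at a3
      · simp [h1] at a3
      · rfl
    · rintro ⟨a, b, s⟩
      refine ⟨⟨fun i => if i = 0 then a else b, if s then Multiplicative.ofAdd 1 else 1⟩, ?_⟩
      change (⟨if (0 : ZMod 2) = 0 then a else b, if (1 : ZMod 2) = 0 then a else b, _⟩ : Wr G) = _
      have h2 : (1 : ZMod 2) ≠ 0 := by decide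
      rw [if_pos rfl, if_neg h2]
      cases s
      · simp
      · simp [h1])

end Pool.Agent.Hp21.AW
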