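import Pool.Agent.Q90.WR.Bcl
import Pool.Agent.N85.TG.Exc0
import Pool.Agent.R674.KB.Dz
import Pool.Agent.N85.WM.Sep

/-!
# Blocks in characteristic `p` and blocks modulo a valuation ring
-/

set_option autoImplicit false
set_option linter.unusedSectionVars false

open scoped BigOperators Classical

noncomputable section

namespace Pool.Agent.Hp21.AW

open Pool.Agent.Y63.NV (IsClassFun centralValue redC IsWt numIrrInd numDzBlock)
open Pool.Agent.Y63.KR
open Pool.Agent.Y63.AWC (IsIrreducibleCharacter)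
open Pool.Agent.Y930.NV
open Pool.Agent.H254R3.IN (omega IsIrr)
open Pool.Agent.Q259.BW (L omega_eq_L)
open Pool.Agent.Q90.WR (IndS GoodB mem_IndS blkAlt deg_pos)

/-- `O` and the reduction map define the same congruences for algebraic integers -/
def Compat {F : Type} [Field F] (red : integralClosure ℤ ℂ →+* F) (O : ValuationSubring ℂ) : Prop :=
  ∀ a : integralClosure ℤ ℂ, (a : ℂ) ∈ O.nonunits ↔ red a = 0

theorem ker_max (p : ℕ) [Fact p.Prime] {F : Type} [Field F] [CharP F p]
    (red : integralClosure ℤ ℂ →+* F) : (RingHom.ker red).IsMaximal := by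
  have hpr : (RingHom.ker red).IsPrime := RingHom.ker_isPrime red
  refine Ideal.isMaximal_of_isIntegral_of_isMaximal_comap (R := ℤ) (RingHom.ker red) ?_
  have h1 : (RingHom.ker red).comap (algebraMap ℤ (integralClosure ℤ ℂ)) =
      Ideal.span {(p : ℤ)} := by
    ext n
    rw [Ideal.mem_comap, RingHom.mem_ker, Ideal.mem_span_singleton, eq_intCast, map_intCast]
    exact CharP.intCast_eq_zero_iff F p n
  rw [h1]
  exact Int.ideal_span_isMaximal_of_prime p

theorem exists_val (p : ℕ) [Fact p.Prime] {F : Type} [Field F] [CharP F p]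
    (red : integralClosure ℤ ℂ →+* F) :
    ∃ O : ValuationSubring ℂ, (p : ℂ) ∈ O.nonunits ∧ Compat red O := by
  have hmax := ker_max p red
  let A : Subring ℂ := (integralClosure ℤ ℂ).toSubring
  obtain ⟨O, h1, h2⟩ := Ideal.image_subset_nonunits_valuationSubring (K := ℂ) (A := A)
    (RingHom.ker red) hmax.ne_top
  have h3 : ∀ a : integralClosure ℤ ℂ, red a = 0 → (a : ℂ) ∈ O.nonunits := fun a ha =>
    h2 ⟨a, ha, rfl⟩
  have hcomp : Compat red O := by
    intro a
    refine ⟨fun ha => ?_, h3 a⟩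
    by_contra hne
    obtain ⟨b, c, hc, hbc⟩ := hmax.exists_inv (x := a) hne
    have hc0 := h3 c hc
    have hbO : (b : ℂ) ∈ O := h1 b.2
    have hba : (b : ℂ) * (a : ℂ) ∈ O.nonunits := by
      rw [ValuationSubring.mem_nonunits_iff_exists_mem_maximalIdeal] at ha ⊢
      obtain ⟨haO, ha'⟩ := ha
      exact ⟨O.mul_mem _ _ hbO haO, Ideal.mul_mem_left _ (⟨(b : ℂ), hbO⟩ : O) ha'⟩
    have h5 : (1 : ℂ) ∈ O.nonunits := by
      have h6 : (1 : ℂ) = (b : ℂ) * (a : ℂ) + (c : ℂ) := by
        have := congrArg (fun t : integralClosure ℤ ℂ => (t : ℂ)) hbc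
        simpa using this.symm
      rw [h6]
      rw [ValuationSubring.mem_nonunits_iff_exists_mem_maximalIdeal] at hba hc0 ⊢
      obtain ⟨m1, m1'⟩ := hba
      obtain ⟨m2, m2'⟩ := hc0
      exact ⟨O.add_mem _ _ m1 m2, Ideal.add_mem _ m1' m2'⟩
    rw [ValuationSubring.mem_nonunits_iff] at h5
    simp at h5
  refine ⟨O, ?_, hcomp⟩
  have h4 := h3 (p : integralClosure ℤ ℂ) (by rw [map_natCast]; exact CharP.cast_eq_zero F p)
  simpa using h4

section val

variable {F : Type} [Field F] {red : integralClosure ℤ ℂ →+* F} {O : ValuationSubring ℂ}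

theorem sub_iff (hO : Compat red O) {a b : ℂ} (ha : IsIntegral ℤ a) (hb : IsIntegral ℤ b) :
    a - b ∈ O.nonunits ↔ redC red a = redC red b := by
  have h := hO (⟨a, ha⟩ - ⟨b, hb⟩)
  rw [map_sub, sub_eq_zero, ← redC_of red ha, ← redC_of red hb] at h
  exact h

end val

/-- the indicator function of the class of `x` -/
def ix (F : Type) [Field F] {G : Type} [Group G] (x : G) : G → F :=
  fun g => if IsConj x g then 1 else 0

theorem ix_class (F : Type) [Field F] {G : Type} [Group G] (x : G) : IsClassFun (ix F x) := by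
  intro g y
  unfold ix
  have h : IsConj x (g * y * g⁻¹) ↔ IsConj x y := by
    have h1 : IsConj y (g * y * g⁻¹) := isConj_iff.mpr ⟨g, rfl⟩
    exact ⟨fun h => h.trans h1.symm, fun h => h.trans h1⟩
  simp only [h]

section L

variable {F : Type} [Field F] (red : integralClosure ℤ ℂ →+* F) {G K : Type} [Group G] [Group K]
  [Fintype K]

/-- the sum of the values in a class -/
theorem L_val (π : K →* G) {θ : K → ℂ} (h : IsIrreducibleCharacter θ) (x : G) :
    IsIntegral ℤ (L π θ x) ∧ redC red (L π θ x) = centralValue red θ (fun k => ix F x (π k)) := by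
  let n : K → ℤ := fun k => if IsConj x (π k) then 1 else 0
  have hn : Cf n := by
    intro g y
    have h1 : IsConj (π y) (π (g * y * g⁻¹)) := by
      rw [map_mul, map_mul, map_inv]
      exact isConj_iff.mpr ⟨π g, rfl⟩
    have h2 : IsConj x (π (g * y * g⁻¹)) ↔ IsConj x (π y) :=
      ⟨fun h => h.trans h1.symm, fun h => h.trans h1⟩
    simp only [n, h2]
  have h1 : L π θ x = om θ (fun g => (n g : ℂ)) := by
    unfold L om
    congr 1
    refine Finset.sum_congr rfl fun c _ => ?_
    simp only [n]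
    split_ifs <;> simp
  rw [h1]
  refine ⟨om_int h hn, ?_⟩
  have h2 := R_expand red h hn
  unfold R at h2
  rw [h2, centralValue_eq red h]
  refine Finset.sum_congr rfl fun C _ => ?_
  congr 1
  simp only [n, ix]
  split_ifs <;> simp

theorem omega_val [Fintype G] {χ : G → ℂ} (h : IsIrreducibleCharacter χ) (x : G) :
    IsIntegral ℤ (omega χ x) ∧ redC red (omega χ x) = centralValue red χ (ix F x) := by
  rw [omega_eq_L h]
  exact L_val red (MonoidHom.id G) h x

end L

section lin

variable {F : Type} [Field F] (red : integralClosure ℤ ℂ →+* F) {G K : Type} [Group G] [Group K]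
  [Fintype K] [Fintype G]

/-- class functions are combinations of indicator functions -/
theorem class_expand {f : G → F} (hf : IsClassFun f) (g : G) :
    f g = ∑ C : ConjClasses G, f C.out * ix F C.out g := by
  rw [Finset.sum_eq_single (ConjClasses.mk g)]
  · have h1 : IsConj (ConjClasses.mk g).out g := by
      rw [← ConjClasses.mk_eq_mk_iff_isConj]
      exact mk_out _
    obtain ⟨c, hc⟩ := isConj_iff.mp h1
    have h2 := hf c (ConjClasses.mk g).out
    rw [hc] at h2
    unfold ix
    rw [if_pos h1, mul_one, h2]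
  · intro C _ hC
    unfold ix
    rw [if_neg, mul_zero]
    intro h
    apply hC
    rw [← mk_out C, ConjClasses.mk_eq_mk_iff_isConj]
    exact h
  · intro h
    exact absurd (Finset.mem_univ _) h

theorem cval_expand (π : K → G) {θ : K → ℂ} (h : IsIrreducibleCharacter θ) {f : G → F}
    (hf : IsClassFun f) : centralValue red θ (fun k => f (π k)) =
      ∑ C : ConjClasses G, f C.out * centralValue red θ (fun k => ix F C.out (π k)) := by
  simp only [centralValue_eq red h, Finset.mul_sum]
  rw [Finset.sum_comm]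
  refine Finset.sum_congr rfl fun D _ => ?_
  rw [class_expand hf (π D.out), Finset.sum_mul]
  exact Finset.sum_congr rfl fun C _ => by ring

/-- agreement on all class functions and on indicator functions -/
theorem agree_iff (π : K → G) {θ : K → ℂ} (h : IsIrreducibleCharacter θ) {χ : G → ℂ}
    (hχ : IsIrreducibleCharacter χ) :
    (∀ f : G → F, IsClassFun f → centralValue red θ (fun k => f (π k)) = centralValue red χ f) ↔
      ∀ x : G, centralValue red θ (fun k => ix F x (π k)) = centralValue red χ (ix F x) := by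
  constructor
  · intro h1 x
    exact h1 _ (ix_class F x)
  · intro h1 f hf
    rw [cval_expand red π h hf]
    have h2 := cval_expand red (fun g : G => g) hχ hf
    rw [show (fun k => f k) = f from rfl] at h2
    rw [h2]
    exact Finset.sum_congr rfl fun C _ => by rw [h1]

end lin

section main

variable {F : Type} [Field F] {red : integralClosure ℤ ℂ →+* F} {O : ValuationSubring ℂ}
  {G : Type} [Group G] [Finite G]

/-- the characters of a subgroup whose block induces to a block -/
theorem card_indS (hO : Compat red O) {𝓑 : Set (G → ℂ)}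
    (hB : Pool.Agent.H254R3.IN.IsBlock O 𝓑) {χ₀ : G → ℂ} (h0 : χ₀ ∈ 𝓑)
    (hχ : IsIrreducibleCharacter χ₀) (H : Subgroup G) :
    Nat.card (IndS O 𝓑 (Subtype.val : H → G)) = numIrrInd red H (centralValue red χ₀) := by
  have := Fintype.ofFinite G
  have := Fintype.ofFinite H
  unfold numIrrInd
  refine Nat.card_congr (Equiv.subtypeEquivRight fun θ => ?_)
  have h1 : θ ∈ IndS O 𝓑 (Subtype.val : H → G) ↔ IsIrr θ ∧ ∀ χ ∈ 𝓑, ∀ x : G,
    omega χ x - ∑ᶠ y : {y : H // IsConj x (y : G)}, θ y / θ 1 ∈ O.nonunits := Iff.rfl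
  rw [h1]
  refine and_congr_right fun hθ => ?_
  have hθ' : IsIrreducibleCharacter θ := hθ
  rw [agree_iff red (Subtype.val : H → G) hθ' hχ]
  have h2 : ∀ χ : G → ℂ, IsIrreducibleCharacter χ → ∀ x : G,
      (omega χ x - ∑ᶠ y : {y : H // IsConj x (y : G)}, θ y / θ 1 ∈ O.nonunits ↔
        centralValue red χ (ix F x) = centralValue red θ (fun k => ix F x (k : G))) := by
    intro χ hχ' x
    have h3 := L_val red H.subtype hθ' x
    have h4 := omega_val red hχ' x
    have h5 := Pool.Agent.Q90.WR.sum_eq_L' (Subtype.val : H → G) θ x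
    rw [h5]
    rw [← h4.2]
    have h6 : centralValue red θ (fun k => ix F x (k : G)) = redC red (L H.subtype θ x) :=
      h3.2.symm
    rw [h6]
    exact sub_iff hO h4.1 h3.1
  constructor
  · intro h x
    exact ((h2 χ₀ hχ x).mp (h χ₀ h0 x)).symm
  · intro h χ hχB x
    have hχ' : IsIrreducibleCharacter χ := hB.irr χ hχB
    rw [h2 χ hχ' x, h x]
    have h4 := omega_val red hχ' x
    have h5 := omega_val red hχ x
    rw [← h4.2, ← h5.2]
    have h6 := Pool.Agent.H254R3.IN.IsBlock.red_eq hB hχB h0 x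
    rw [Pool.Agent.H254R3.IN.red_eq_iff
      (Pool.Agent.H254R3.IN.IsIrr.omega_mem (hB.irr χ hχB) O x)
      (Pool.Agent.H254R3.IN.IsIrr.omega_mem (hB.irr χ₀ h0) O x), sub_iff hO h4.1 h5.1] at h6
    exact h6

theorem numIrrInd_congr {B B' : (G → F) → F} (h : Pool.Agent.N85.WM.BEq B B')
    (H : Subgroup G) : numIrrInd red H B = numIrrInd red H B' := by
  unfold numIrrInd
  refine Nat.card_congr (Equiv.subtypeEquivRight fun θ => ?_)
  refine and_congr_right fun _ => forall_congr' fun f => imp_congr_right fun hf => ?_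
  rw [h f hf]

/-- the alternating sums -/
theorem blkAlt_eq {p : ℕ} (hO : Compat red O) {𝓑 : Set (G → ℂ)}
    (hB : Pool.Agent.H254R3.IN.IsBlock O 𝓑) {χ₀ : G → ℂ} (h0 : χ₀ ∈ 𝓑)
    (hχ : IsIrreducibleCharacter χ₀) {B : (G → F) → F}
    (h : Pool.Agent.N85.WM.BEq (centralValue red χ₀) B) :
    blkAlt p O 𝓑 = alternatingSum p G (fun H => (numIrrInd red H B : ℤ)) := by
  unfold blkAlt alternatingSum
  refine finsum_congr fun c => ?_
  have h1 := card_indS hO hB h0 hχ (chainStabilizer c.out.1)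
  rw [numIrrInd_congr h] at h1
  change (-1) ^ c.out.1.ncard *
    ((Nat.card (IndS O 𝓑 (Subtype.val : chainStabilizer c.out.1 → G)) : ℕ) : ℤ) = _
  rw [h1]

/-- a block without characters of defect zero -/
theorem good_of {p : ℕ} [Fact p.Prime] [CharP F p] (hO : Compat red O)
    (hpO : (p : ℂ) ∈ O.nonunits) {B : (G → F) → F} (hB : Pool.Agent.Y63.NV.IsBlock B)
    (hz : ∀ χ : G → ℂ, IsWt p (⊥ : Subgroup G) χ →
      ¬ ∀ f : G → F, IsClassFun f → centralValue red χ f = B f) :
    ∃ (𝓑 : Set (G → ℂ)) (χ₀ : G → ℂ), GoodB O 𝓑 ∧ χ₀ ∈ 𝓑 ∧ IsIrreducibleCharacter χ₀ ∧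
      Pool.Agent.N85.WM.BEq (centralValue red χ₀) B := by
  have := Fintype.ofFinite G
  obtain ⟨χ₀, hχ, h1⟩ := Pool.Agent.N85.TG.Exc.core red hB
  have h2 : χ₀ ∈ {χ : G → ℂ | IsIrr χ ∧ ∀ x : G, omega χ x - omega χ₀ x ∈ O.nonunits} := by
    refine ⟨hχ, fun x => ?_⟩
    have h4 := omega_val red hχ x
    rw [sub_iff hO h4.1 h4.1]
  refine ⟨{χ | IsIrr χ ∧ ∀ x : G, omega χ x - omega χ₀ x ∈ O.nonunits}, χ₀, ⟨⟨χ₀, hχ, rfl⟩, ?_⟩,
    h2, hχ, h1⟩
  rintro ψ ⟨hψ, hψ2⟩
  have hψ' : IsIrreducibleCharacter ψ := hψ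
  obtain ⟨d, hd0, hd⟩ := deg_pos hψ
  rw [hd]
  refine Pool.Agent.Q90.WR.nonunits_of_fac hpO hd0.ne' ?_
  refine lt_of_le_of_ne (Pool.Agent.Q90.WR.fac_le hψ hd) fun heq => ?_
  refine hz ψ ⟨hψ', ?_, d, hd, ?_⟩ ?_
  · intro q hq x
    rw [Subgroup.mem_bot.mp hq, one_mul]
  · rw [Subgroup.card_bot, Nat.factorization_one, Finsupp.coe_zero, Pi.zero_apply, add_zero]
    exact heq
  · have h5 := (agree_iff red (fun g : G => g) hψ' hχ).mpr (fun x => by
      have h6 := omega_val red hψ' x
      have h7 := omega_val red hχ x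
      have h8 := (sub_iff hO h6.1 h7.1).mp (hψ2 x)
      rw [h6.2, h7.2] at h8
      exact h8)
    intro f hf
    rw [← h1 f hf]
    exact h5 f hf

/-- a block without characters of defect zero, conversely -/
theorem dz_zero {p : ℕ} [hp : Fact p.Prime] [CharP F p] (hO : Compat red O)
    {𝓑 : Set (G → ℂ)} (hB : GoodB O 𝓑) {χ₀ : G → ℂ} (h0 : χ₀ ∈ 𝓑)
    (hχ : IsIrreducibleCharacter χ₀) : numDzBlock p red (centralValue red χ₀) = 0 := by
  have := Fintype.ofFinite G
  unfold numDzBlock
  rw [Nat.card_eq_zero]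
  left
  constructor
  rintro ⟨χ, hw, hχB⟩
  have h1 : χ ∈ 𝓑 := by
    have h3 : ∀ x, omega χ₀ x - omega χ x ∈ O.nonunits := by
      intro x
      have h4 := omega_val red hw.irr x
      have h5 := omega_val red hχ x
      rw [sub_iff hO h5.1 h4.1, h4.2, h5.2]
      exact (hχB _ (ix_class F x)).symm
    exact Pool.Agent.Q259.BW.block_mem hB.block h0 hw.irr h3
  have h2 := hB.pos χ h1
  obtain ⟨n, hn, hn2⟩ := hw.defectZero
  rw [Subgroup.card_bot, Nat.factorization_one, Finsupp.coe_zero, Pi.zero_apply, add_zero] at hn2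
  rw [hn] at h2
  obtain ⟨m, hm⟩ := Pool.Agent.Y63.AWC.deg_dvd hw.irr hn
  have hG : Nat.card G ≠ 0 := Nat.card_pos.ne'
  have hn0 : n ≠ 0 := by
    rintro rfl
    rw [zero_mul] at hm
    exact hG hm
  have hm0 : m ≠ 0 := by
    rintro rfl
    rw [mul_zero] at hm
    exact hG hm
  have h6 : (Nat.card G : ℂ) / n = ((m : integralClosure ℤ ℂ) : ℂ) := by
    have hnC : (n : ℂ) ≠ 0 := by exact_mod_cast hn0
    rw [hm]
    push_cast
    field_simp
  rw [h6, hO, map_natCast, CharP.cast_eq_zero_iff F p] at h2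
  rw [hm, Nat.factorization_mul hn0 hm0, Finsupp.coe_add, Pi.add_apply] at hn2
  have h7 : m.factorization p = 0 := by omega
  rcases (Nat.factorization_eq_zero_iff _ _).mp h7 with h8 | h8 | h8
  · exact h8 hp.out
  · exact h8 h2
  · exact hm0 h8

end main

end Pool.Agent.Hp21.AW
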