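import Pool.Agent.Hp21.AW.Alt
import Pool.Agent.Hp21.AW.Val
import Pool.Agent.Hp21.AW.Iso
import Pool.Agent.Hp21.AW.Free
import Pool.Agent.R674.KB.Main

/-!
# The blockwise weight conjecture and parity
-/

set_option autoImplicit false
set_option linter.unusedSectionVars false

open scoped BigOperators Classical

noncomputable section

namespace Pool.Agent.Hp21.AW

open Pool.Agent.Y63.NV
open Pool.Agent.Y63.KR
open Pool.Agent.Y63.AWC (IsIrreducibleCharacter pSubgroupSetoid)
open Pool.Agent.N85.WM (numWts BEq)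
open Pool.Agent.Q90.WR (Wr WrN WrSN GoodB blkAlt ba_dvd eq_of_all)
open Pool.Agent.R674.KB (KRQ krq_iff kdimh kfilt kfin')

variable {p : ℕ} [hp : Fact p.Prime] {F : Type} [Field F] [IsAlgClosed F] [CharP F p]
  {red : integralClosure ℤ ℂ →+* F} {O : ValuationSubring ℂ}

theorem blk_even (hO : Compat red O) {G : Type} [Group G] [Finite G] (m : ℕ)
    (hA : ∀ H : Subgroup G, ∀ B : (H → F) → F, IsBlock B →
      numIrrBlock B ≡ numWts p red B [MOD m]) {𝓑 : Set (G → ℂ)} (hB : GoodB O 𝓑) :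
    (m : ℤ) ∣ blkAlt p O 𝓑 := by
  have := Fintype.ofFinite G
  obtain ⟨χ₀, h0⟩ := hB.block.nonempty
  have hχ : IsIrreducibleCharacter χ₀ := hB.block.irr χ₀ h0
  rw [blkAlt_eq hO hB.block h0 hχ (Pool.Agent.N85.WM.BEq.refl _)]
  have h1 := block_dvd (p := p) red m hA (Pool.Agent.Y930.NV.cvh F red G χ₀ hχ)
  rwa [dz_zero hO hB h0 hχ, Nat.cast_zero, sub_zero] at h1

theorem good_wrN (hp2 : p ≠ 2) (hpO : (p : ℂ) ∈ O.nonunits) : ∀ (j : ℕ) (G : Type) [Group G]
    [Finite G] (𝓑 : Set (G → ℂ)), GoodB O 𝓑 → GoodB O (WrSN j 𝓑) := by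
  intro j
  induction j with
  | zero => exact fun G _ _ 𝓑 h => h
  | succ j ih =>
    intro G _ _ 𝓑 h
    have := Fintype.ofFinite G
    exact ih (Wr G) _ (h.wr hp2 hpO)

/-- the identities of Knörr and Robinson, from the parities -/
theorem krb_of_parity (hp2 : p ≠ 2) (X : ∀ (H : Type) [Group H], Prop) (hX : Closed p X)
    (hwr : ∀ (G : Type) [Group G] [Finite G], X G → X (Wr G))
    (h : ∀ (G : Type) [Group G] [Finite G], X G → ∀ B : (G → F) → F, IsBlock B →
      numIrrBlock B ≡ numWts p red B [MOD 2]) :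
    ∀ (G : Type) [Group G] [Finite G], X G → KRB p red G := by
  obtain ⟨O, hpO, hO⟩ := exists_val p red
  have h2 : ∀ (j : ℕ) (G : Type) [Group G] [Finite G], X G → X (WrN j G) := by
    intro j
    induction j with
    | zero => exact fun G _ _ hG => hG
    | succ j ih => exact fun G _ _ hG => ih (Wr G) (hwr G hG)
  intro G _ _ hG
  rw [← krq_iff]
  intro B hB hz
  obtain ⟨𝓑, χ₀, hg, h0, hχ, hBE⟩ := good_of hO hpO hB hz
  rw [← blkAlt_eq hO hg.block h0 hχ hBE]
  refine eq_of_all fun a => ?_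
  rw [sub_zero]
  refine ba_dvd hp2 hpO a G 𝓑 hg fun j _ => ?_
  exact blk_even hO 2 (fun H B' hB' => h H (hX.sub _ (h2 j G hG) H) B' hB')
    (good_wrN hp2 hpO j G 𝓑 hg)

/-- the weight conjecture, from the identities of Knörr and Robinson -/
theorem bawc_of_krb_class (X : ∀ (H : Type) [Group H], Prop) (hX : Closed p X)
    (h : ∀ (H : Type) [Group H] [Finite H], X H → Reduced p H → KRB p red H) :
    ∀ (Γ : Type) [Group Γ] [Finite Γ], XP p X Γ → BAWC p red Γ := by
  intro Γ _ _ hΓ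
  rw [bawc_iff]
  refine bawc_reduction' red X hX ?_ (Nat.card Γ) Γ le_rfl hΓ
  intro H _ _ hH hR hsmall
  refine bawc_of_krb kdimh kfilt kfin' red (fun σ hσ hne => ?_) (h H hH hR)
  have hXP : XP p X (chainStabilizer σ) :=
    (xp_closed p X hX).sub H ⟨⊤, inferInstance,
      hX.iso _ _ hH ⟨Subgroup.topEquiv.symm⟩, pgroup_top p H⟩ _
  exact hsmall (chainStabilizer σ) hXP (stab_lt hR.radical hσ hne)

/-- odd primes -/
theorem block_odd (hp2 : p ≠ 2) (X : ∀ (H : Type) [Group H], Prop) (hX : Closed p X)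
    (hwr : ∀ (G : Type) [Group G] [Finite G], X G → X (Wr G))
    (h : ∀ (G : Type) [Group G] [Finite G], X G → ∀ B : (G → F) → F, IsBlock B →
      numIrrBlock B ≡ numWts p red B [MOD 2]) :
    ∀ (G : Type) [Group G] [Finite G], XP p X G → BAWC p red G :=
  bawc_of_krb_class X hX fun H _ _ hH _ => krb_of_parity hp2 X hX hwr h H hH

end Pool.Agent.Hp21.AW
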