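import Pool.Agent.Hp21.AW.Free
import Pool.Agent.Y63.NV.Pe

/-!
# The numbers of irreducible traces and of weights
-/

set_option autoImplicit false

open scoped BigOperators Classical

noncomputable section

namespace Pool.Agent.Hp21.AW

open Pool.Agent.Y63.NV
open Pool.Agent.Y63.AWC (pSubgroupSetoid numDefectZero numWeights numRegularClasses)
open Pool.Agent.N85.WM (numIrr numWt uno uno_class lnum_uno cvS_uno)

theorem uno_single (F : Type) [Field F] (G : Type) [Group G] :
    uno F G = (Pi.single 1 1 : G → F) := by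
  funext x
  rw [isUnitFun_single G x]
  rfl

theorem numIrr_eq (p : ℕ) [Fact p.Prime] (F : Type) [Field F] [IsAlgClosed F] [CharP F p]
    (G : Type) [Group G] [Finite G] : numIrr F G = numRegularClasses p G := by
  rw [← lnum_uno, uno_single, lreg' p F G ⊤ (pgroup_top p G), invReg_top]

theorem numWt_eq (p : ℕ) [Fact p.Prime] (G : Type) [Group G] [Finite G] :
    numWt p G = numWeights p G := by
  obtain ⟨red⟩ := exists_red p (AlgebraicClosure (ZMod p))
  have h1 := Pool.Agent.N85.WM.wsum_top (p := p) red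
    (z := uno (AlgebraicClosure (ZMod p)) G) uno_class 1
  rw [cvS_uno red, uno_single] at h1
  have h2 := wcov' p (AlgebraicClosure (ZMod p)) red G ⊤
  rw [h2, covW_eq] at h1
  have h3 : (∑ᶠ c : Quotient (pSubgroupSetoid p G),
      if (⊤ : Subgroup G) ⊔ c.out.1 = ⊤ then locz p c.out.1 else 0) = numWeights p G := by
    unfold numWeights
    refine finsum_congr fun c => ?_
    rw [if_pos (top_sup_eq _)]
    rfl
  rw [h3] at h1
  have h0 : (Nat.card G : ℤ) ≠ 0 := by exact_mod_cast Nat.card_pos.ne'
  rw [Nat.cast_mul] at h1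
  have h4 := mul_left_cancel₀ h0 h1
  exact_mod_cast h4.symm

/-- the prime two -/
theorem free_two (X : ∀ (H : Type) [Group H], Prop)
    (hwr : ∀ (G : Type) [Group G] [Finite G], X G → X (Pool.Agent.N85.WM.Wr 2 G))
    (h : ∀ (G : Type) [Group G] [Finite G], X G →
      numRegularClasses 2 G ≡ numWeights 2 G [MOD 2]) :
    ∀ (G : Type) [Group G] [Finite G], X G → numRegularClasses 2 G = numWeights 2 G := by
  obtain ⟨red⟩ := exists_red 2 (AlgebraicClosure (ZMod 2))
  intro G _ _ hG
  rw [← numIrr_eq 2 (AlgebraicClosure (ZMod 2)), ← numWt_eq]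
  refine Pool.Agent.N85.WM.tot_of_modp Pool.Agent.N85.WM.lw' Pool.Agent.N85.WM.ww'
    (AlgebraicClosure (ZMod 2)) red X hwr (fun H _ _ hH => ?_) G hG
  rw [numIrr_eq 2 (AlgebraicClosure (ZMod 2)), numWt_eq]
  exact h H hH

end Pool.Agent.Hp21.AW
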